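import Pool.Agent.H75C.HY.NF

/-!
# Piece A1 of helper75's project NF (MP_bba6cc_lc): the support determines the truth value
-/

set_option autoImplicit false

namespace Pool.Agent.Helper88.NF

open Pool.Agent.NPC Pool.Agent.H75C.HY Pool.Agent.H75C.HY.NF

open Classical

/-- truth value as an element of `ZMod 2` -/
def z (b : Bool) : ZMod 2 := if b = true then 1 else 0

theorem z_iff (b : Bool) (v : ZMod 2) : (b = true ↔ v = 1) ↔ z b = v := by
  unfold z
  revert v
  cases b <;> decide

theorem z_xor (a b : Bool) : z (xor a b) = z a + z b := by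
  revert a b; decide

theorem z_add_self (a : Bool) : z a + z a = 0 := by
  revert a; decide

theorem z_not (a : Bool) : z (!a) = 1 + z a := by
  revert a; decide

theorem z_odd (n : ℕ) : z (decide (Odd n)) = (n : ZMod 2) := by
  unfold z
  by_cases h : Odd n
  · rw [if_pos (by simpa using h)]
    exact ((ZMod.natCast_eq_one_iff_odd).2 h).symm
  · rw [if_neg (by simpa using h)]
    exact ((ZMod.natCast_eq_zero_iff_even).2 (Nat.not_odd_iff_even.1 h)).symm

theorem vt_one (K : Model) (k : ℕ) (ρ : Nm → K.W) (d : ℕ) (w : K.W) :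
    vt K k ρ d w (one k) = 1 := by
  cases k <;> rfl

theorem vt_pro (K : Model) (k : ℕ) (ρ : Nm → K.W) (d : ℕ) (w : K.W) (i : ℕ) :
    vt K k ρ d w (pro k i) = if K.V i w then 1 else 0 := by
  cases k <;> rfl

theorem vt_tst (K : Model) (k : ℕ) (ρ : Nm → K.W) (d : ℕ) (w : K.W) (A : Finset (E k)) :
    vt K (k + 1) ρ d w (tst A) = ∑ B ∈ A.powerset, if ∃ v, K.R w v ∧
      vs K k (Function.update ρ (.lv d) w) (d + 1) v B = 1 then 1 else 0 := rfl

theorem vs_singleton (K : Model) (k : ℕ) (ρ : Nm → K.W) (d : ℕ) (w : K.W) (e : E k) :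
    vs K k ρ d w {e} = ve ρ (vt K k ρ d w) w e := by
  unfold vs
  rw [Finset.sum_singleton]

theorem vs_one (K : Model) (k : ℕ) (ρ : Nm → K.W) (d : ℕ) (w : K.W) :
    vs K k ρ d w {Sum.inr (one k)} = 1 := by
  rw [vs_singleton]
  exact vt_one K k ρ d w

theorem vs_empty (K : Model) (k : ℕ) (ρ : Nm → K.W) (d : ℕ) (w : K.W) :
    vs K k ρ d w ∅ = 0 := by
  unfold vs
  rw [Finset.sum_empty]

theorem vs_symmDiff (K : Model) (k : ℕ) (ρ : Nm → K.W) (d : ℕ) (w : K.W) (A B : Finset (E k)) :
    vs K k ρ d w (symmDiff A B) = vs K k ρ d w A + vs K k ρ d w B := by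
  unfold vs
  set f := ve ρ (vt K k ρ d w) w with hf
  have h1 : ∑ e ∈ A, f e = ∑ e ∈ A \ B, f e + ∑ e ∈ A ∩ B, f e := by
    rw [add_comm]
    exact (Finset.sum_inter_add_sum_sdiff A B f).symm
  have h2 : ∑ e ∈ B, f e = ∑ e ∈ B \ A, f e + ∑ e ∈ A ∩ B, f e := by
    rw [add_comm, Finset.inter_comm]
    exact (Finset.sum_inter_add_sum_sdiff B A f).symm
  have h3 : ∑ e ∈ symmDiff A B, f e = ∑ e ∈ A \ B, f e + ∑ e ∈ B \ A, f e := by
    rw [← Finset.sum_union]
    · rfl
    · exact disjoint_sdiff_sdiff
  rw [h1, h2, h3]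
  have h4 : (∑ e ∈ A ∩ B, f e) + (∑ e ∈ A ∩ B, f e) = 0 := by
    generalize (∑ e ∈ A ∩ B, f e) = t
    revert t
    decide
  linear_combination -h4

/-- Moebius inversion modulo 2 -/
theorem moebius {α : Type} (D : Finset α → ZMod 2) (c : Finset α) :
    ∑ A ∈ c.powerset, ∑ B ∈ A.powerset, D B = D c := by
  rw [Finset.sum_comm' (s' := fun B => Finset.Icc B c) (t' := c.powerset)]
  · rw [Finset.sum_eq_single c]
    · simp
    · intro B hB hne
      rw [Finset.mem_powerset] at hB
      rw [Finset.sum_const, Finset.card_Icc_finset hB]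
      have h1 : B.card < c.card := Finset.card_lt_card (hB.ssubset_of_ne hne)
      obtain ⟨n, hn⟩ : ∃ n, c.card - B.card = n + 1 := ⟨c.card - B.card - 1, by omega⟩
      rw [hn, pow_succ, nsmul_eq_mul]
      push_cast
      have : ((2 : ZMod 2)) = 0 := by decide
      rw [this, mul_zero, zero_mul]
    · intro h
      exact absurd (Finset.mem_powerset_self c) h
  · intro A B
    rw [Finset.mem_powerset, Finset.mem_powerset, Finset.mem_Icc, Finset.mem_powerset]
    constructor
    · rintro ⟨h1, h2⟩
      exact ⟨⟨h2, h1⟩, Finset.Subset.trans h2 h1⟩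
    · rintro ⟨⟨h1, h2⟩, _⟩
      exact ⟨h2, h1⟩

theorem tst'_inj (τ : Bool) (k : ℕ) :
    Function.Injective fun A : Finset (E k) => (Sum.inr (tst' τ A) : E (k + 1)) := by
  intro A B h
  have h' : tst' τ A = tst' τ B := Sum.inr.inj h
  unfold tst' at h'
  split_ifs at h' with hA hB hB
  · rw [hA.2, hB.2]
  · exact absurd h' (by unfold one tst; exact Sum.inl_ne_inr)
  · exact absurd h' (by unfold one tst; exact Sum.inr_ne_inl)
  · exact Sum.inr.inj h'

theorem vt_tst' (K : Model) (τ : Bool) (hτ : τ = true → ∀ w, ∃ v, K.R w v) (k : ℕ)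
    (ρ : Nm → K.W) (d : ℕ) (w : K.W) (A : Finset (E k)) :
    vt K (k + 1) ρ d w (tst' τ A) = ∑ B ∈ A.powerset, if ∃ v, K.R w v ∧
      vs K k (Function.update ρ (.lv d) w) (d + 1) v B = 1 then 1 else 0 := by
  unfold tst'
  split_ifs with h
  · rw [vt_one, h.2]
    obtain ⟨v, hv⟩ := hτ h.1 w
    have hps : ({Sum.inr (one k)} : Finset (E k)).powerset = {∅, {Sum.inr (one k)}} := by
      ext B
      rw [Finset.mem_powerset, Finset.subset_singleton_iff]
      simp
    rw [hps, Finset.sum_pair (Finset.singleton_ne_empty _).symm,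
      if_neg, if_pos ⟨v, hv, vs_one _ _ _ _ _⟩, zero_add]
    rintro ⟨u, _, hu⟩
    rw [vs_empty] at hu
    exact absurd hu (by decide)
  · exact vt_tst K k ρ d w A

theorem vs_dsup (K : Model) (τ : Bool) (hτ : τ = true → ∀ w, ∃ v, K.R w v) (k : ℕ)
    (ρ : Nm → K.W) (d : ℕ) (w : K.W) (c : Finset (E k)) :
    vs K (k + 1) ρ d w (dsup τ c) = if ∃ v, K.R w v ∧
      vs K k (Function.update ρ (.lv d) w) (d + 1) v c = 1 then 1 else 0 := by
  unfold dsup
  have h0 : vs K (k + 1) ρ d w ((c.powerset.erase ∅).image fun A => Sum.inr (tst' τ A)) =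
      ∑ A ∈ c.powerset.erase ∅, vt K (k + 1) ρ d w (tst' τ A) := by
    unfold vs
    rw [Finset.sum_image fun A _ B _ h => tst'_inj τ k h]
    rfl
  rw [h0, ← moebius (fun B => if ∃ v, K.R w v ∧
      vs K k (Function.update ρ (.lv d) w) (d + 1) v B = 1 then (1 : ZMod 2) else 0) c,
    ← Finset.add_sum_erase _ _ (Finset.empty_mem_powerset c), Finset.powerset_empty,
    Finset.sum_singleton, if_neg, zero_add]
  · exact Finset.sum_congr rfl fun A _ => vt_tst' K τ hτ k ρ d w A
  · rintro ⟨u, _, hu⟩
    rw [vs_empty] at hu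
    exact absurd hu (by decide)

theorem vs_app (K : Model) (k : ℕ) (ρ : Nm → K.W) (d : ℕ) (w : K.W) {n : ℕ}
    (f : (Fin n → Bool) → Bool) (hf : Affine f) (C : Fin n → Finset (E k)) (t : Fin n → Bool)
    (ht : ∀ i, z (t i) = vs K k ρ d w (C i)) :
    z (f t) = vs K k ρ d w ((insert (Sum.inr (one k)) (Finset.univ.biUnion fun i => C i)).filter
      fun e => xor (f fun i => decide (e ∈ C i))
          (if e = Sum.inr (one k) then false else f fun _ => false) = true) := by
  obtain ⟨c, s, hs⟩ := hf
  set X := insert (Sum.inr (one k) : E k) (Finset.univ.biUnion fun i => C i) with hX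
  set v := ve ρ (vt K k ρ d w) w with hv
  have hfalse : (f fun _ => false) = c := by
    rw [hs]
    simp
  -- the indicator
  have hind : ∀ e : E k, (if xor (f fun i => decide (e ∈ C i))
      (if e = Sum.inr (one k) then false else f fun _ => false) = true then v e else 0) =
      (if e = Sum.inr (one k) then z c * v e else 0) + ∑ i ∈ s, if e ∈ C i then v e else 0 := by
    intro e
    have h1 : (if xor (f fun i => decide (e ∈ C i))
      (if e = Sum.inr (one k) then false else f fun _ => false) = true then v e else 0) =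
      z (xor (f fun i => decide (e ∈ C i))
        (if e = Sum.inr (one k) then false else f fun _ => false)) * v e := by
      unfold z
      split_ifs <;> simp
    have h2 : ∑ i ∈ s, (if e ∈ C i then v e else 0) =
        (((s.filter fun i => e ∈ C i).card : ℕ) : ZMod 2) * v e := by
      rw [← Finset.sum_filter, Finset.sum_const, nsmul_eq_mul]
    have h3 : (s.filter fun i => decide (e ∈ C i) = true) = s.filter fun i => e ∈ C i := by
      ext i
      simp
    rw [h1, h2, z_xor, hs (fun i => decide (e ∈ C i)), h3, z_xor, z_odd]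
    by_cases he : e = Sum.inr (one k)
    · rw [if_pos he, if_pos he]
      have : z false = 0 := by decide
      rw [this]
      ring
    · rw [if_neg he, if_neg he, hfalse]
      have : z c + z c = 0 := z_add_self c
      linear_combination (v e) * this
  have hvs : vs K k ρ d w (X.filter fun e => xor (f fun i => decide (e ∈ C i))
          (if e = Sum.inr (one k) then false else f fun _ => false) = true) =
      z c + ∑ i ∈ s, vs K k ρ d w (C i) := by
    unfold vs
    rw [Finset.sum_filter, Finset.sum_congr rfl fun e _ => hind e, Finset.sum_add_distrib,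
      Finset.sum_ite_eq', if_pos (Finset.mem_insert_self _ _), Finset.sum_comm]
    have h4 : v (Sum.inr (one k)) = 1 := vt_one K k ρ d w
    rw [h4, mul_one]
    congr 1
    refine Finset.sum_congr rfl fun i _ => ?_
    rw [← Finset.sum_filter]
    apply Finset.sum_congr _ fun _ _ => rfl
    ext e
    rw [Finset.mem_filter]
    refine ⟨fun h => h.2, fun h => ⟨?_, h⟩⟩
    exact Finset.mem_insert_of_mem (Finset.mem_biUnion.2 ⟨i, Finset.mem_univ _, h⟩)
  rw [hvs, hs t, z_xor, z_odd]
  congr 1
  have h5 : ∑ i ∈ s, vs K k ρ d w (C i) = ∑ i ∈ s, if t i = true then (1 : ZMod 2) else 0 :=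
    Finset.sum_congr rfl fun i _ => (ht i).symm
  rw [h5, ← Finset.sum_filter, Finset.sum_const, nsmul_eq_mul, mul_one]

theorem a1 : A1 := by
  intro 𝔅 hA τ K hτ φ
  induction φ with
  | prop i =>
    intro _ k _ env d _ ρ _ g w _
    rw [z_iff]
    unfold sup
    rw [vs_singleton]
    show z (decide (K.V i w)) = vt K k ρ d w (pro k i)
    rw [vt_pro]
    unfold z
    by_cases h : K.V i w <;> simp [h]
  | nom i =>
    intro _ k _ env d _ ρ hρ g w _
    rw [z_iff]
    unfold sup
    rw [vs_singleton]
    show z (decide (w = K.nm i)) = if w = ρ (.nom i) then 1 else 0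
    rw [hρ]
    unfold z
    by_cases h : w = K.nm i <;> simp [h]
  | var x =>
    intro _ k _ env d _ ρ _ g w hg
    rw [z_iff]
    unfold sup
    by_cases hx : env x = .lv d
    · rw [if_pos hx, vs_one]
      have h1 := hg x
      rw [if_pos hx] at h1
      show z (decide (w = g x)) = 1
      rw [h1]
      simp [z]
    · rw [if_neg hx, vs_singleton]
      have h1 := hg x
      rw [if_neg hx] at h1
      show z (decide (w = g x)) = if w = ρ (env x) then 1 else 0
      rw [h1]
      unfold z
      by_cases h : w = ρ (env x) <;> simp [h]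
  | app b ψ ih =>
    intro hN k hk env d henv ρ hρ g w hg
    rw [z_iff]
    have hmd : ∀ i, md (ψ i) ≤ k := fun i =>
      (Finset.le_sup (f := fun i => md (ψ i)) (Finset.mem_univ i)).trans hk
    unfold sup
    exact vs_app K k ρ d w (𝔅.ev b) (hA b) (fun i => sup τ (ψ i) k env d)
      (fun i => tv K (ψ i) g w) fun i => (z_iff _ _).1 (ih i (hN i) k (hmd i) env d henv ρ hρ g w hg)
  | dia ψ ih =>
    intro hN k hk env d henv ρ hρ g w hg
    have hk' : md ψ + 1 ≤ k := hk
    obtain ⟨k, rfl⟩ : ∃ k', k = k' + 1 := ⟨k - 1, by omega⟩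
    have key : ∀ v, (tv K ψ g v = true ↔
        vs K k (Function.update ρ (.lv d) w) (d + 1) v (sup τ ψ k env (d + 1)) = 1) := by
      intro v
      apply ih hN k (by omega) env (d + 1) (fun x j h => (henv x j h).trans (Nat.le_succ d))
      · intro i
        rw [Function.update_of_ne (by simp), hρ]
      · intro x
        have h1 : env x ≠ .lv (d + 1) := fun h => by
          have := henv x _ h
          omega
        rw [if_neg h1, hg x]
        by_cases h2 : env x = .lv d
        · rw [if_pos h2, h2, Function.update_self]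
        · rw [if_neg h2, Function.update_of_ne h2]
    rw [z_iff]
    show z (decide (∃ v, K.R w v ∧ tv K ψ g v = true)) =
      vs K (k + 1) ρ d w (dsup τ (sup τ ψ k env (d + 1)))
    rw [vs_dsup K τ hτ]
    simp only [key, z, decide_eq_true_eq]
  | box ψ ih =>
    intro hN k hk env d henv ρ hρ g w hg
    have hk' : md ψ + 1 ≤ k := hk
    obtain ⟨k, rfl⟩ : ∃ k', k = k' + 1 := ⟨k - 1, by omega⟩
    have key : ∀ v, (tv K ψ g v = true ↔
        vs K k (Function.update ρ (.lv d) w) (d + 1) v (sup τ ψ k env (d + 1)) = 1) := by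
      intro v
      apply ih hN k (by omega) env (d + 1) (fun x j h => (henv x j h).trans (Nat.le_succ d))
      · intro i
        rw [Function.update_of_ne (by simp), hρ]
      · intro x
        have h1 : env x ≠ .lv (d + 1) := fun h => by
          have := henv x _ h
          omega
        rw [if_neg h1, hg x]
        by_cases h2 : env x = .lv d
        · rw [if_pos h2, h2, Function.update_self]
        · rw [if_neg h2, Function.update_of_ne h2]
    rw [z_iff]
    show z (decide (∀ v, K.R w v → tv K ψ g v = true)) =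
      vs K (k + 1) ρ d w (symmDiff {Sum.inr (one (k + 1))}
        (dsup τ (symmDiff {Sum.inr (one k)} (sup τ ψ k env (d + 1)))))
    rw [vs_symmDiff, vs_one, vs_dsup K τ hτ]
    have h2 : ∀ t : ZMod 2, 1 + t = 1 ↔ ¬ t = 1 := by decide
    simp only [vs_symmDiff, vs_one, h2, ← key]
    by_cases h : ∀ v, K.R w v → tv K ψ g v = true
    · rw [if_neg (by push Not; exact h), decide_eq_true h]
      decide
    · rw [if_pos (by push Not at h; exact h)]
      have : z (decide (∀ v, K.R w v → tv K ψ g v = true)) = 0 := by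
        unfold z
        rw [if_neg]
        simpa using h
      rw [this]
      decide
  | bind x ψ ih =>
    intro hN k hk env d henv ρ hρ g w hg
    unfold sup
    show (tv K ψ (Function.update g x w) w = true ↔ _)
    apply ih hN k hk (Function.update env x (.lv d)) d _ ρ hρ
    · intro y
      by_cases hy : y = x
      · rw [hy, Function.update_self, Function.update_self, if_pos rfl]
      · rw [Function.update_of_ne hy, Function.update_of_ne hy, hg y]
    · intro y j h
      by_cases hy : y = x
      · rw [hy, Function.update_self] at h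
        have := Nm.lv.inj h
        omega
      · rw [Function.update_of_ne hy] at h
        exact henv y j h
  | atNom i ψ _ =>
    intro hN
    exact hN.elim
  | atVar x ψ _ =>
    intro hN
    exact hN.elim

end Pool.Agent.Helper88.NF
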